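import Pool.Agent.Helper51.RP.Goals2

/-!
# Packet RP-SUB (MP_fc6b1e_nt)
-/

namespace Pool.Agent.Helper90.RP

open NumberField Polynomial Module IsDedekindDomain TensorProduct Pool.Agent.Helper51.SigLeo
  Pool.Agent.Helper51.RP WithZero

section conj

variable {K M : Type} [Field K] [Field M] [NumberField M] [Algebra K M]

theorem intVal_conj {R : Type} [CommRing R] [IsDedekindDomain R] (e : R ≃+* R)
    (v w : HeightOneSpectrum R) (hw : w.asIdeal = v.asIdeal.map (e : R →+* R)) (r : R) :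
    w.intValuation (e r) = v.intValuation r := by
  by_cases hr : r = 0
  · subst hr; simp
  have her : e r ≠ 0 := by simpa using hr
  have key : ∀ n : ℕ, w.intValuation (e r) ≤ exp (-(n : ℤ)) ↔
      v.intValuation r ≤ exp (-(n : ℤ)) := by
    intro n
    rw [HeightOneSpectrum.intValuation_le_pow_iff_mem, HeightOneSpectrum.intValuation_le_pow_iff_mem,
      hw, ← Ideal.map_pow]
    constructor
    · intro h
      have h2 := (Ideal.mem_map_iff_of_surjective (e : R →+* R) e.surjective).1 h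
      obtain ⟨s, hs, hse⟩ := h2
      have : s = r := e.injective hse
      rwa [← this]
    · intro h
      exact Ideal.mem_map_of_mem (e : R →+* R) h
  have h1 := (w.intValuation_if_neg her)
  have h2 := (v.intValuation_if_neg hr)
  apply le_antisymm
  · have := (key _).2 h2.le
    rwa [← h2] at this
  · have := (key _).1 h1.le
    rwa [← h1] at this

theorem exists_conj (g : M ≃ₐ[K] M) (v : HeightOneSpectrum (𝓞 M)) :
    ∃ w : HeightOneSpectrum (𝓞 M), ∀ y : M, w.valuation M (g y) = v.valuation M y := by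
  let e : 𝓞 M ≃+* 𝓞 M := RingOfIntegers.mapRingEquiv (g : M ≃+* M)
  let w : HeightOneSpectrum (𝓞 M) := HeightOneSpectrum.equivOfRingEquiv e v
  have hw : w.asIdeal = v.asIdeal.map (e : 𝓞 M →+* 𝓞 M) := by
    show v.asIdeal.comap (e.symm : 𝓞 M →+* 𝓞 M) = _
    exact Ideal.comap_symm e
  refine ⟨w, fun y ↦ ?_⟩
  obtain ⟨⟨n, d⟩, rfl⟩ := IsLocalization.mk'_surjective (nonZeroDivisors (𝓞 M)) y
  have h1 : ∀ r : 𝓞 M, w.valuation M (g (algebraMap (𝓞 M) M r)) =
      v.valuation M (algebraMap (𝓞 M) M r) := by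
    intro r
    have h2 : g (algebraMap (𝓞 M) M r) = algebraMap (𝓞 M) M (e r) := rfl
    rw [h2, HeightOneSpectrum.valuation_of_algebraMap, HeightOneSpectrum.valuation_of_algebraMap,
      intVal_conj e v w hw]
  show w.valuation M (g (IsLocalization.mk' M n d)) = v.valuation M (IsLocalization.mk' M n d)
  rw [IsFractionRing.mk'_eq_div, map_div₀, map_div₀, map_div₀, h1, h1]

/-- The prime `δ⁻¹ w`. -/
theorem exists_pull (δ : M ≃ₐ[K] M) (w : HeightOneSpectrum (𝓞 M)) :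
    ∃ w' : HeightOneSpectrum (𝓞 M), ConjP K w' w ∧
      ∀ y : M, w.valuation M (δ y) = w'.valuation M y := by
  obtain ⟨w', hw'⟩ := exists_conj (K := K) δ⁻¹ w
  refine ⟨w', ⟨δ⁻¹, hw'⟩, fun y ↦ ?_⟩
  have h7 := hw' (δ y)
  have h8 : (δ⁻¹ : M ≃ₐ[K] M) (δ y) = y := AlgEquiv.symm_apply_apply δ y
  rw [h8] at h7
  exact h7.symm

end conj

section log

variable {p : ℕ} {k : Type} [NormedField k] (L : IwasawaLog p k)

theorem L_one : L.toFun 1 = 0 := by
  have h := L.map_mul 1 1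
  rw [one_mul] at h
  exact left_eq_add.1 h

theorem L_inv (u : kˣ) : L.toFun u⁻¹ = - L.toFun u := by
  have h := L.map_mul u u⁻¹
  rw [mul_inv_cancel, L_one] at h
  exact (neg_eq_of_add_eq_zero_right h.symm).symm

variable {M : Type} [Field M] {T : Set (M →+* k)}

theorem sig_one (N : ℕ) : SigSmall L T N (1 : Mˣ) := by
  intro τ _
  refine ⟨by simp, ?_⟩
  rw [map_one, L_one, norm_zero]
  positivity

theorem sig_inv {N : ℕ} {x : Mˣ} (h : SigSmall L T N x) : SigSmall L T N x⁻¹ := by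
  intro τ hτ
  obtain ⟨h1, h2⟩ := h τ hτ
  refine ⟨?_, ?_⟩
  · rw [Units.val_inv_eq_inv_val, map_inv₀, norm_inv, h1, inv_one]
  · rw [map_inv, L_inv, norm_neg]
    exact h2

theorem sig_mul [IsUltrametricDist k] {N : ℕ} {x y : Mˣ} (hx : SigSmall L T N x)
    (hy : SigSmall L T N y) : SigSmall L T N (x * y) := by
  intro τ hτ
  obtain ⟨h1, h2⟩ := hx τ hτ
  obtain ⟨h3, h4⟩ := hy τ hτ
  refine ⟨?_, ?_⟩
  · rw [Units.val_mul, map_mul, norm_mul, h1, h3, mul_one]
  · rw [map_mul, L.map_mul]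
    exact (IsUltrametricDist.norm_add_le_max _ _).trans (max_le h2 h4)

theorem loc_pow (y : Mˣ) : LocSig L T (y ^ p) := by
  intro N
  refine ⟨y⁻¹, ?_⟩
  rw [inv_pow, mul_inv_cancel]
  exact sig_one L N

theorem loc_one : LocSig L T (1 : Mˣ) := by
  have h := loc_pow L (T := T) (1 : Mˣ)
  rwa [one_pow] at h

theorem loc_inv {x : Mˣ} (h : LocSig L T x) : LocSig L T x⁻¹ := by
  intro N
  obtain ⟨y, hy⟩ := h N
  refine ⟨y⁻¹, ?_⟩
  rw [inv_pow, ← mul_inv]
  exact sig_inv L hy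

theorem loc_mul [IsUltrametricDist k] {x y : Mˣ} (hx : LocSig L T x) (hy : LocSig L T y) :
    LocSig L T (x * y) := by
  intro N
  obtain ⟨a, ha⟩ := hx N
  obtain ⟨b, hb⟩ := hy N
  refine ⟨a * b, ?_⟩
  rw [mul_pow, mul_mul_mul_comm]
  exact sig_mul L ha hb

theorem loc_delta {K : Type} [Field K] [Algebra K M] {T : Set (K →+* k)} (δ : M ≃ₐ[K] M) {x : Mˣ}
    (h : LocSig L (above T : Set (M →+* k)) x) :
    LocSig L (above T : Set (M →+* k)) (Units.map ((δ : M →+* M) : M →* M) x) := by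
  intro N
  obtain ⟨y, hy⟩ := h N
  refine ⟨Units.map ((δ : M →+* M) : M →* M) y, ?_⟩
  rw [← map_pow, ← map_mul]
  intro τ hτ
  have hτ' : τ.comp (δ : M →+* M) ∈ (above T : Set (M →+* k)) := by
    show (τ.comp (δ : M →+* M)).comp (algebraMap K M) ∈ T
    have h1 : (τ.comp (δ : M →+* M)).comp (algebraMap K M) = τ.comp (algebraMap K M) := by
      ext z
      simp
    rw [h1]
    exact hτ
  exact hy _ hτ'

end log

theorem s_sub : Pool.Agent.Helper51.RP.S_SUB := by
  intro p _ k _ _ L K M _ _ _ _ _ δ T S 𝔪₀ v hv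
  have v_one : ∀ w ∈ S, v 1 w = 0 := by
    intro w hw
    have h := hv.add 1 1 w hw
    rw [one_mul] at h
    exact left_eq_add.1 h
  have v_inv : ∀ x, ∀ w ∈ S, v x⁻¹ w = - v x w := by
    intro x w hw
    have h := hv.add x x⁻¹ w hw
    rw [mul_inv_cancel, v_one w hw] at h
    exact (neg_eq_of_add_eq_zero_right h.symm).symm
  have v_pow : ∀ x, ∀ w ∈ S, ∀ n : ℕ, v (x ^ n) w = n * v x w := by
    intro x w hw n
    induction n with
    | zero => rw [pow_zero, v_one w hw]; simp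
    | succ n ih => rw [pow_succ, hv.add _ _ w hw, ih]; push_cast; ring
  refine ⟨{ carrier := {x | LSat L (above T : Set (M →+* k)) S v x}
            one_mem' := ⟨v_one, loc_one L⟩
            mul_mem' := ?_
            inv_mem' := ?_ }, fun x ↦ Iff.rfl, ?_, ?_⟩
  · rintro x y ⟨hx1, hx2⟩ ⟨hy1, hy2⟩
    refine ⟨fun w hw ↦ ?_, loc_mul L hx2 hy2⟩
    rw [hv.add _ _ w hw, hx1 w hw, hy1 w hw, add_zero]
  · rintro x ⟨hx1, hx2⟩
    refine ⟨fun w hw ↦ ?_, loc_inv L hx2⟩
    rw [v_inv x w hw, hx1 w hw, neg_zero]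
  · rintro x ⟨y, rfl⟩
    refine ⟨fun w hw ↦ ?_, loc_pow L y⟩
    rw [v_pow y w hw p, CharP.cast_eq_zero, zero_mul]
  · rintro x ⟨hx1, hx2⟩
    refine ⟨fun w hw ↦ ?_, loc_delta L δ hx2⟩
    obtain ⟨w', hw', hval⟩ := exists_pull (K := K) δ w
    rw [hv.equiv x w hw w' hval]
    exact hx1 w' (hv.stable w hw w' hw')

end Pool.Agent.Helper90.RP
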