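import Pool.Agent.Helper43.RP.Goals
import Pool.Agent.Helper91.FE.NV

/-!
# Project RP, packet RP-NV: Roth's lemma with a small index
-/

set_option autoImplicit false

open Finset MvPolynomial NumberField

namespace Pool.Agent.Helper90.RP.NV

open Pool.Agent.Helper50.FE Pool.Agent.Helper92.Ru Pool.Agent.Helper91.FE

theorem t : Pool.Agent.Helper43.RP.NV2 := by
  intro m ε hε
  obtain ⟨ω, C, hω, hω1, hC, H⟩ := rothLemma m ℚ (ε / 2) (by linarith)
  refine ⟨ω, C * (Real.log 4 + 1), hω, mul_pos hC (by have := Real.log_nonneg (x := 4) (by norm_num); linarith), ?_⟩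
  intro r ξ c hc0 hc hcb hr hrr hh
  by_contra hcon
  push Not at hcon
  have hp0 : pol r c ≠ 0 := by
    obtain ⟨a, ha⟩ := hc0
    intro h
    have := coeff_pol r c hc (Finsupp.equivFunOnFinite.symm a)
    rw [h, coeff_zero] at this
    exact ha (by exact_mod_cast this.symm)
  have hdeg : ∀ h, (pol r c).degreeOf h ≤ r h := by
    intro h
    rw [degreeOf_le_iff]
    intro e he
    rw [mem_support_iff, coeff_pol r c hc] at he
    have h1 := hc _ (by exact_mod_cast he)
    unfold Pool.Agent.Helper50.FE.box at h1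
    rw [Fintype.mem_piFinset] at h1
    have h2 := mem_range.1 (h1 h)
    omega
  have h4 : (1 : ℝ) ≤ 4 ^ (∑ i, r i) := one_le_pow₀ (by norm_num)
  have hPH : PH (pol r c) ≤ 4 ^ (∑ i, r i) := by
    have h := Pool.Agent.Helper87.Ru.pHBound ℚ (Fin m) (pol r c) (4 ^ (∑ i, r i)) h4
      (fun e _ => ⟨(c (fun i => e i) : 𝓞 ℚ), by rw [coeff_pol r c hc]; simp⟩)
      (fun v e _ => by
        rw [coeff_pol r c hc, Rat.infinitePlace_apply]
        have := hcb (fun i => e i)
        have h5 : |((c (fun i => e i) : ℤ) : ℚ)| ≤ (4 : ℚ) ^ (∑ i, r i) := by exact_mod_cast this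
        exact_mod_cast h5)
    rwa [Module.finrank_self, pow_one] at h
  have hPH1 : 0 < PH (pol r c) := by
    unfold PH
    exact Height.mulHeight_pos _
  have hlog : Real.log (PH (pol r c)) ≤ (∑ i, r i : ℕ) * Real.log 4 := by
    rw [← Real.log_pow]
    exact Real.log_le_log hPH1 hPH
  have := H r (∑ i, r i) ξ (pol r c) ε hp0
    (fun h => ⟨hr h, single_le_sum (fun i _ => Nat.zero_le _) (mem_univ h)⟩) hdeg hrr
    (fun h => by
      refine le_trans ?_ (hh h)
      rw [mul_assoc]
      refine mul_le_mul_of_nonneg_left ?_ hC.le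
      nlinarith [hlog])
    (fun e he => by
      rw [mem_support_iff, coeff_shift] at he
      by_contra h1
      exact he (hcon (fun i => e i) (not_le.1 h1)))
  linarith

end Pool.Agent.Helper90.RP.NV
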